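import Pool.Agent.Helper75.Torus.Goals

set_option autoImplicit false

open Set MeasureTheory Matrix

namespace Pool.Agent.Helper49.Torus

open Pool.Agent.Helper75.Torus
open Pool.Agent.Helper75.Flow (curlL)

lemma ibp (f g : E → ℝ) (v : E) (hf : ContDiff ℝ 1 f) (hg : ContDiff ℝ 1 g)
    (hc : HasCompactSupport g) :
    Integrable (fun x => f x * fderiv ℝ g x v) ∧
    ∫ x, f x * fderiv ℝ g x v = - ∫ x, fderiv ℝ f x v * g x := by
  have cf := hf.continuous
  have cg := hg.continuous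
  have cf' : Continuous (fun x => fderiv ℝ f x v) :=
    (hf.continuous_fderiv (by norm_num)).clm_apply continuous_const
  have cg' : Continuous (fun x => fderiv ℝ g x v) :=
    (hg.continuous_fderiv (by norm_num)).clm_apply continuous_const
  have hc' : HasCompactSupport (fun x => fderiv ℝ g x v) := hc.fderiv_apply ℝ v
  have i2 : Integrable (fun x => f x * fderiv ℝ g x v) := by
    refine (cf.mul cg').integrable_of_hasCompactSupport ?_
    exact HasCompactSupport.mul_left (f := f) hc'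
  refine ⟨i2, ?_⟩
  apply integral_mul_fderiv_eq_neg_fderiv_mul_of_integrable
  · refine (cf'.mul cg).integrable_of_hasCompactSupport ?_
    exact HasCompactSupport.mul_left (f := fun x => fderiv ℝ f x v) hc
  · exact i2
  · refine (cf.mul cg).integrable_of_hasCompactSupport ?_
    exact HasCompactSupport.mul_left (f := f) hc
  · intro x _
    exact hf.contDiffAt.differentiableAt (by norm_num)
  · intro x _
    exact hg.contDiffAt.differentiableAt (by norm_num)

lemma comp_fderiv (Q : E → E) (hQ : Differentiable ℝ Q) (Y v : E) (c : Fin 3) :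
    fderiv ℝ Q Y v c = fderiv ℝ (fun Y => Q Y c) Y v := by
  have h := hasFDerivAt_pi'.1 (hQ Y).hasFDerivAt c
  rw [h.fderiv]
  rfl

lemma moment0 (η : E → ℝ) (κ : E) (hη : Bump η) (hκ : κ ⬝ᵥ κ = 1) (δ : ℝ) (hδ : 0 < δ) (τ : ℝ) :
    ∫ Y : E, th η κ δ Y * Real.sin (κ ⬝ᵥ Y + τ) = 0 := by
  have hcη : Continuous η := hη.1.continuous
  have cdot : Continuous (fun Y : E => κ ⬝ᵥ Y) := by
    unfold dotProduct
    fun_prop
  set F : E → ℝ := fun Z => η (δ • Z) * Real.sin (κ ⬝ᵥ Z + τ) with hF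
  have cF : Continuous F := by
    rw [hF]
    exact (hcη.comp (continuous_const_smul δ)).mul
      (Real.continuous_sin.comp (cdot.add continuous_const))
  have sF : HasCompactSupport F := by
    rw [hF]
    have h1 : HasCompactSupport (η ∘ (Homeomorph.smulOfNeZero δ hδ.ne' : E ≃ₜ E)) :=
      hη.2.1.comp_homeomorph _
    exact HasCompactSupport.mul_right (f' := fun Z : E => Real.sin (κ ⬝ᵥ Z + τ)) h1
  have iF : Integrable F := cF.integrable_of_hasCompactSupport sF
  have iF' : Integrable (fun Y => F (Y + Real.pi • κ)) := iF.comp_add_right _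
  have e : ∀ Y : E, th η κ δ Y * Real.sin (κ ⬝ᵥ Y + τ) =
      (1 / 2) * F Y - (1 / 2) * F (Y + Real.pi • κ) := by
    intro Y
    have h1 : κ ⬝ᵥ (Y + Real.pi • κ) + τ = (κ ⬝ᵥ Y + τ) + Real.pi := by
      rw [dotProduct_add, dotProduct_smul, hκ, smul_eq_mul, mul_one]
      ring
    simp only [hF, th]
    rw [h1, Real.sin_add_pi]
    ring
  simp_rw [e]
  rw [integral_sub (iF.const_mul _) (iF'.const_mul _), integral_const_mul, integral_const_mul,
    integral_add_right_eq_self F]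
  ring

theorem thm (h : G_T1A) : G_T1B := by
  intro η κ hη hκ δ hδ τ b
  obtain ⟨_, h2⟩ := h η κ hη hκ
  obtain ⟨h3, _⟩ := h2 δ hδ τ
  obtain ⟨hT, hTc, hQ, hQc⟩ := h3 b
  set Q : E → E := Qf η κ δ τ b with hQd
  have hQdiff : Differentiable ℝ Q := hQ.differentiable (by norm_num)
  have hq : ∀ c, ContDiff ℝ 3 (fun Y => Q Y c) := fun c => contDiff_pi.1 hQ c
  have hqc : ∀ c, HasCompactSupport (fun Y => Q Y c) := by
    intro c
    exact hQc.comp_left (g := fun v : E => v c) rfl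
  -- the components of the test field
  have hTT : ∀ Y, Tf η κ δ τ b Y = ![fderiv ℝ (fun Y => Q Y 2) Y (ee 1) -
      fderiv ℝ (fun Y => Q Y 1) Y (ee 2), fderiv ℝ (fun Y => Q Y 0) Y (ee 2) -
      fderiv ℝ (fun Y => Q Y 2) Y (ee 0), fderiv ℝ (fun Y => Q Y 1) Y (ee 0) -
      fderiv ℝ (fun Y => Q Y 0) Y (ee 1)] := by
    intro Y
    show curlL (fderiv ℝ Q Y) = _
    unfold curlL
    rw [comp_fderiv Q hQdiff, comp_fderiv Q hQdiff, comp_fderiv Q hQdiff, comp_fderiv Q hQdiff,
      comp_fderiv Q hQdiff, comp_fderiv Q hQdiff]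
    rfl
  have m0 : ∀ c, ∫ Y : E, Q Y c = 0 := by
    intro c
    have e : ∀ Y : E, Q Y c = (-(crossProduct κ b c)) *
        (th η κ δ Y * Real.sin (κ ⬝ᵥ Y + τ)) := by
      intro Y
      rw [hQd]
      simp only [Qf, Pi.smul_apply, smul_eq_mul]
      ring
    simp_rw [e]
    rw [integral_const_mul, moment0 η κ hη hκ δ hδ.1 τ, mul_zero]
  have hq1 : ∀ c, ContDiff ℝ 1 (fun Y => Q Y c) := fun c => (hq c).of_le (by norm_num)
  -- moments of the derivatives
  have p0 : ∀ c (v : E), Integrable (fun Y => fderiv ℝ (fun Y => Q Y c) Y v) ∧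
      ∫ Y : E, fderiv ℝ (fun Y => Q Y c) Y v = 0 := by
    intro c v
    have := ibp (fun _ => 1) (fun Y => Q Y c) v contDiff_const (hq1 c) (hqc c)
    simpa using this
  have p1 : ∀ c (j a : Fin 3), Integrable (fun Y : E => Y j * fderiv ℝ (fun Y => Q Y c) Y (ee a)) ∧
      ∫ Y : E, Y j * fderiv ℝ (fun Y => Q Y c) Y (ee a) = 0 := by
    intro c j a
    have := ibp (fun Y : E => Y j) (fun Y => Q Y c) (ee a) (contDiff_apply ℝ ℝ j) (hq1 c) (hqc c)
    refine ⟨this.1, ?_⟩
    rw [this.2]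
    have e : ∀ Y : E, fderiv ℝ (fun Y : E => Y j) Y (ee a) = ee a j := by
      intro Y
      have h5 : HasFDerivAt (fun Y : E => Y j) (ContinuousLinearMap.proj (R := ℝ) j : E →L[ℝ] ℝ) Y :=
        (ContinuousLinearMap.proj (R := ℝ) j : E →L[ℝ] ℝ).hasFDerivAt
      rw [h5.fderiv]
      rfl
    simp_rw [e]
    rw [integral_const_mul, m0 c, mul_zero, neg_zero]
  refine ⟨?_, ?_, ?_⟩
  · -- the divergence
    intro Y
    have hTdiff : Differentiable ℝ (Tf η κ δ τ b) := hT.differentiable (by norm_num)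
    have hd2 : ∀ c a, HasFDerivAt (fun Y => fderiv ℝ (fun Y => Q Y c) Y (ee a))
        ((fderiv ℝ (fderiv ℝ (fun Y => Q Y c)) Y).flip (ee a)) Y := by
      intro c a
      have h6 : DifferentiableAt ℝ (fderiv ℝ (fun Y => Q Y c)) Y := by
        have : ContDiff ℝ 2 (fderiv ℝ (fun Y => Q Y c)) := (hq c).fderiv_right (by norm_num)
        exact this.contDiffAt.differentiableAt (by norm_num)
      have h8 := h6.hasFDerivAt.clm_apply (hasFDerivAt_const (ee a) Y)
      simpa using h8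
    have hsym : ∀ c (v w : E), fderiv ℝ (fderiv ℝ (fun Y => Q Y c)) Y v w =
        fderiv ℝ (fderiv ℝ (fun Y => Q Y c)) Y w v := by
      intro c v w
      have h6 : IsSymmSndFDerivAt ℝ (fun Y => Q Y c) Y := by
        apply ContDiffAt.isSymmSndFDerivAt (n := 3) (hq c).contDiffAt
        simp only [minSmoothness_of_isRCLikeNormedField]
        norm_num
      exact h6 v w
    rw [Fin.sum_univ_three, comp_fderiv _ hTdiff, comp_fderiv _ hTdiff, comp_fderiv _ hTdiff]
    have f0 : (fun Y => Tf η κ δ τ b Y 0) = fun Y => fderiv ℝ (fun Y => Q Y 2) Y (ee 1) -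
      fderiv ℝ (fun Y => Q Y 1) Y (ee 2) := by
      funext Y; rw [hTT]; rfl
    have f1 : (fun Y => Tf η κ δ τ b Y 1) = fun Y => fderiv ℝ (fun Y => Q Y 0) Y (ee 2) -
      fderiv ℝ (fun Y => Q Y 2) Y (ee 0) := by
      funext Y; rw [hTT]; rfl
    have f2 : (fun Y => Tf η κ δ τ b Y 2) = fun Y => fderiv ℝ (fun Y => Q Y 1) Y (ee 0) -
      fderiv ℝ (fun Y => Q Y 0) Y (ee 1) := by
      funext Y; rw [hTT]; rfl
    rw [f0, f1, f2, ((hd2 2 1).fun_sub (hd2 1 2)).fderiv, ((hd2 0 2).fun_sub (hd2 2 0)).fderiv,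
      ((hd2 1 0).fun_sub (hd2 0 1)).fderiv]
    simp only [ContinuousLinearMap.sub_apply, ContinuousLinearMap.flip_apply]
    rw [hsym 2 (ee 0) (ee 1), hsym 1 (ee 0) (ee 2), hsym 0 (ee 1) (ee 2)]
    ring
  · intro i
    have h7 : ∀ c a c' a' : Fin 3, ∫ Y : E, (fderiv ℝ (fun Y => Q Y c) Y (ee a) -
        fderiv ℝ (fun Y => Q Y c') Y (ee a')) = 0 := by
      intro c a c' a'
      rw [integral_sub (p0 c (ee a)).1 (p0 c' (ee a')).1, (p0 c (ee a)).2, (p0 c' (ee a')).2,
        sub_zero]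
    simp_rw [hTT]
    fin_cases i
    · exact h7 2 1 1 2
    · exact h7 0 2 2 0
    · exact h7 1 0 0 1
  · intro i j
    have h7 : ∀ c a c' a' : Fin 3, ∫ Y : E, Y j * (fderiv ℝ (fun Y => Q Y c) Y (ee a) -
        fderiv ℝ (fun Y => Q Y c') Y (ee a')) = 0 := by
      intro c a c' a'
      simp_rw [mul_sub]
      rw [integral_sub (p1 c j a).1 (p1 c' j a').1, (p1 c j a).2, (p1 c' j a').2, sub_zero]
    simp_rw [hTT]
    fin_cases i
    · exact h7 2 1 1 2
    · exact h7 0 2 2 0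
    · exact h7 1 0 0 1

end Pool.Agent.Helper49.Torus
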